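import Pool.Agent.CMG.Stmts

/-!
# Squad CMG, row BRO: Brouwer's characterisation of the Cantor set
-/

set_option autoImplicit false

open Set Topology

namespace Pool.Agent.CMG.H41

open Pool.Agent.LSG Pool.Agent.CMG

open Classical in
/-- **BRO** -/
theorem bro : BroStmt := by
  intro X _ _ _ _ _ hperf
  have : TotallySeparatedSpace X := inferInstance
  have hcount : Countable (TopologicalSpace.Clopens X) :=
    TopologicalSpace.Clopens.countable_iff_secondCountable.2 inferInstance
  obtain ⟨U, hU⟩ := exists_surjective_nat (TopologicalSpace.Clopens X)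
  have hsep : ∀ x y : X, x ≠ y → ∃ V : Set X, IsClopen V ∧ x ∈ V ∧ y ∉ V := by
    intro x y hxy
    obtain ⟨V, hV, h1, h2⟩ := exists_isClopen_of_totally_separated hxy
    exact ⟨V, hV, h1, h2⟩
  -- splitting
  have hD : ∀ (C : Set X) (n : ℕ), IsClopen C → C.Nonempty → ∃ D : Set X, D ⊆ C ∧ IsClopen D ∧
      D.Nonempty ∧ (C \ D).Nonempty ∧
      ∀ x ∈ C, ∀ y ∈ C, (x ∈ D ↔ y ∈ D) → (x ∈ U n ↔ y ∈ U n) := by
    intro C n hC hne
    by_cases h : (C ∩ U n).Nonempty ∧ (C \ U n).Nonempty
    · refine ⟨C ∩ U n, inter_subset_left, hC.inter (U n).isClopen, h.1, ?_, ?_⟩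
      · obtain ⟨z, hz⟩ := h.2
        exact ⟨z, hz.1, fun hh => hz.2 hh.2⟩
      · intro x hx y hy hxy
        constructor
        · intro h1
          exact (hxy.1 ⟨hx, h1⟩).2
        · intro h1
          exact (hxy.2 ⟨hy, h1⟩).2
    · obtain ⟨x, hx⟩ := hne
      have h2 : ∃ y ∈ C, y ≠ x := by
        by_contra hcon
        push Not at hcon
        apply hperf x
        have : C = {x} := by
          ext y
          exact ⟨fun hy => hcon y hy, fun hy => by rw [mem_singleton_iff.1 hy]; exact hx⟩
        rw [← this]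
        exact hC.isOpen
      obtain ⟨y, hy, hyx⟩ := h2
      obtain ⟨V, hV, hxV, hyV⟩ := hsep x y hyx.symm
      refine ⟨C ∩ V, inter_subset_left, hC.inter hV, ⟨x, hx, hxV⟩,
        ⟨y, hy, fun hh => hyV hh.2⟩, ?_⟩
      intro z hz w hw _
      by_contra hne
      apply h
      by_cases hz1 : z ∈ U n
      · have hw1 : w ∉ U n := fun hw1 => hne ⟨fun _ => hw1, fun _ => hz1⟩
        exact ⟨⟨z, hz, hz1⟩, ⟨w, hw, hw1⟩⟩
      · have hw1 : w ∈ U n := by
          by_contra hw1
          exact hne ⟨fun h => absurd h hz1, fun h => absurd h hw1⟩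
        exact ⟨⟨w, hw, hw1⟩, ⟨z, hz, hz1⟩⟩
  choose! D hDsub hDc hDn hDn' hDs using hD
  let cell : X → ℕ → Set X := fun x n =>
    Nat.rec univ (fun n C => if x ∈ D C n then D C n else C \ D C n) n
  have cell0 : ∀ x, cell x 0 = univ := fun x => rfl
  have cellS : ∀ x n, cell x (n + 1) =
      if x ∈ D (cell x n) n then D (cell x n) n else cell x n \ D (cell x n) n :=
    fun x n => rfl
  let K : (ℕ → Bool) → ℕ → Set X := fun σ n =>
    Nat.rec univ (fun n C => if σ n = true then D C n else C \ D C n) n
  have KS : ∀ σ n, K σ (n + 1) =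
      if σ n = true then D (K σ n) n else K σ n \ D (K σ n) n := fun σ n => rfl
  let b : X → (ℕ → Bool) := fun x n => decide (x ∈ D (cell x n) n)
  have hcell : ∀ x n, IsClopen (cell x n) ∧ x ∈ cell x n := by
    intro x n
    induction n with
    | zero => exact ⟨isClopen_univ, mem_univ _⟩
    | succ n ih =>
      rw [cellS]
      split_ifs with h
      · exact ⟨hDc _ n ih.1 ⟨x, ih.2⟩, h⟩
      · exact ⟨ih.1.diff (hDc _ n ih.1 ⟨x, ih.2⟩), ih.2, h⟩
  have hK : ∀ σ n, IsClopen (K σ n) ∧ (K σ n).Nonempty := by
    intro σ n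
    induction n with
    | zero => exact ⟨isClopen_univ, univ_nonempty⟩
    | succ n ih =>
      rw [KS]
      split_ifs with h
      · exact ⟨hDc _ n ih.1 ih.2, hDn _ n ih.1 ih.2⟩
      · exact ⟨ih.1.diff (hDc _ n ih.1 ih.2), hDn' _ n ih.1 ih.2⟩
  have hKsub : ∀ σ n, K σ (n + 1) ⊆ K σ n := by
    intro σ n
    rw [KS]
    split_ifs with h
    · exact hDsub _ n (hK σ n).1 (hK σ n).2
    · exact sdiff_subset
  have hcellsub : ∀ x n, cell x (n + 1) ⊆ cell x n := by
    intro x n
    rw [cellS]
    split_ifs with h
    · exact hDsub _ n (hcell x n).1 ⟨x, (hcell x n).2⟩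
    · exact sdiff_subset
  -- the cells are constant on the cells
  have hloc : ∀ n x y, y ∈ cell x n → cell y n = cell x n := by
    intro n
    induction n with
    | zero => intro x y _; rfl
    | succ n ih =>
      intro x y hy
      have h1 : cell y n = cell x n := ih x y (hcellsub x n hy)
      have h2 : y ∈ D (cell x n) n ↔ x ∈ D (cell x n) n := by
        rw [cellS] at hy
        split_ifs at hy with h
        · exact ⟨fun _ => h, fun _ => hy⟩
        · exact ⟨fun h' => absurd h' hy.2, fun h' => absurd h' h⟩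
      rw [cellS, cellS, h1]
      by_cases h : x ∈ D (cell x n) n
      · rw [if_pos h, if_pos (h2.2 h)]
      · rw [if_neg h, if_neg fun h' => h (h2.1 h')]
  have hloc2 : ∀ n x y, y ∈ cell x (n + 1) → b y n = b x n := by
    intro n x y hy
    have h1 : cell y n = cell x n := hloc n x y (hcellsub x n hy)
    have h2 : y ∈ D (cell x n) n ↔ x ∈ D (cell x n) n := by
      rw [cellS] at hy
      split_ifs at hy with h
      · exact ⟨fun _ => h, fun _ => hy⟩
      · exact ⟨fun h' => absurd h' hy.2, fun h' => absurd h' h⟩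
    change decide (y ∈ D (cell y n) n) = decide (x ∈ D (cell x n) n)
    rw [h1]
    exact decide_eq_decide.2 h2
  have hcont : Continuous b := by
    refine continuous_pi fun n => ?_
    have : IsLocallyConstant fun x => b x n := by
      rw [IsLocallyConstant.iff_exists_open]
      intro x
      exact ⟨cell x (n + 1), (hcell x (n + 1)).1.isOpen, (hcell x (n + 1)).2,
        fun y hy => hloc2 n x y hy⟩
    exact this.continuous
  have hinj : Function.Injective b := by
    intro x y hxy
    have h1 : ∀ n, cell x n = cell y n := by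
      intro n
      induction n with
      | zero => rfl
      | succ n ih =>
        have h2 : b x n = b y n := congrFun hxy n
        change decide (x ∈ D (cell x n) n) = decide (y ∈ D (cell y n) n) at h2
        rw [ih] at h2
        have h3 := decide_eq_decide.1 h2
        rw [cellS, cellS, ih]
        by_cases h : y ∈ D (cell y n) n
        · rw [if_pos h, if_pos (h3.2 h)]
        · rw [if_neg h, if_neg fun h' => h (h3.1 h')]
    by_contra hne
    obtain ⟨V, hV, hxV, hyV⟩ := hsep x y hne
    obtain ⟨n, hn⟩ := hU ⟨V, hV⟩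
    have h2 : b x n = b y n := congrFun hxy n
    change decide (x ∈ D (cell x n) n) = decide (y ∈ D (cell y n) n) at h2
    have h3 := decide_eq_decide.1 h2
    rw [← h1 n] at h3
    have hy : y ∈ cell x n := by rw [h1 n]; exact (hcell y n).2
    have h4 := hDs (cell x n) n (hcell x n).1 ⟨x, (hcell x n).2⟩ x (hcell x n).2 y hy h3
    rw [hn] at h4
    exact hyV (h4.1 hxV)
  have hsurj : Function.Surjective b := by
    intro σ
    obtain ⟨x, hx⟩ := IsCompact.nonempty_iInter_of_sequence_nonempty_isCompact_isClosed (K σ)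
      (hKsub σ) (fun n => (hK σ n).2) isCompact_univ (fun n => (hK σ n).1.isClosed)
    rw [mem_iInter] at hx
    have h1 : ∀ n, cell x n = K σ n → b x n = σ n := by
      intro n hn
      change decide (x ∈ D (cell x n) n) = σ n
      rw [hn]
      have h2 := hx (n + 1)
      rw [KS] at h2
      cases hσ : σ n with
      | true =>
        rw [if_pos hσ] at h2
        exact decide_eq_true h2
      | false =>
        rw [if_neg (by rw [hσ]; exact Bool.false_ne_true)] at h2
        exact decide_eq_false h2.2
    have h3 : ∀ n, cell x n = K σ n := by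
      intro n
      induction n with
      | zero => rfl
      | succ n ih =>
        have h4 := h1 n ih
        change decide (x ∈ D (cell x n) n) = σ n at h4
        rw [cellS, KS, ← h4, ih]
        by_cases h : x ∈ D (K σ n) n
        · rw [if_pos h, if_pos (decide_eq_true h)]
        · rw [if_neg h, if_neg (by rw [decide_eq_false h]; exact Bool.false_ne_true)]
    exact ⟨x, funext fun n => h1 n (h3 n)⟩
  exact ⟨Continuous.homeoOfEquivCompactToT2 (f := Equiv.ofBijective b ⟨hinj, hsurj⟩) hcont⟩

end Pool.Agent.CMG.H41
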